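import Pool.Agent.ATZ.Stmts1
import Pool.Agent.Helper16_AT6.SMH

/-!
# Squad ATZ, row ONE: the section of `1`
-/

open scoped BigOperators

set_option linter.unusedSectionVars false

noncomputable section

namespace Pool.Agent.PP.TB.H20

open Pool.Agent.Helper51_AWC Pool.Agent.Helper79_WRA Pool.Agent.PP Pool.Agent.PP.KF
open Pool.Agent.PP.K9 Pool.Agent.PP.K9.H97 Pool.Agent.PP.H75 Pool.Agent.PP.T3 Pool.Agent.PP.T2
open Pool.Agent.PP.T5

attribute [local instance] Ideal.Quotient.field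

/-- every element centralises `1` -/
theorem mem_cu_one {G : Type} [Group G] (x : G) : x ∈ Cu (1 : G) := by
  rw [Subgroup.mem_centralizer_singleton_iff]
  simp

/-- a block of `C(1)` under the block `e` of `G` is `e` -/
theorem eq_e {F G : Type} [Field F] [Group G] [Finite G] {e b : G → F} (he : IsBlk e)
    (hb : Bx (Cu (1 : G)) b)
    (hu : mulF (fun t : Cu (1 : G) => e t) (fun t : Cu (1 : G) => b t) =
      fun t : Cu (1 : G) => b t) : b = e := by
  have hcl : IsCl b := by
    intro x y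
    exact (cj_eq_iff _ _).1 (hb.ix.inv (mem_cu_one y)) x
  have hid : IsIdem b := ⟨hcl, hb.mul⟩
  have hse : ∀ x, x ∉ Cu (1 : G) → e x = 0 := fun x hx => absurd (mem_cu_one x) hx
  have hsb : ∀ x, x ∉ Cu (1 : G) → mulF e b x = 0 := fun x hx => absurd (mem_cu_one x) hx
  have h1 : mulF e b = b := by
    apply eq_of_res hsb hb.supp
    rw [mulF_res _ _ hse]
    exact hu
  rcases he.2.2 b hid with h2 | h2
  · rw [← h1, h2]
  · exfalso
    apply hb.ne
    rw [← h1, h2]

/-- ONE: the section of `1`. -/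
theorem one : OneStmt := by
  intro ℓ _ M _ _ G _ _ e V Z γ b hZ χ hχ ψ hψ
  have hl := (hZ.lb 1 Z.one_mem).1
  have hb : b 1 = e := eq_e hZ.blk hl.bx hl.und
  have hgv : ∀ (θ : G → ℂ), θ ∈ IrrE M e → ∀ s : G,
      gv M (Cu (1 : G)) (1 * s) (b 1) θ = θ s := by
    intro θ hθ s
    rw [hb, T6.H16.gv_one e hZ.blk.1.1, one_mul]
    exact (T6.H16.fv_eh e hθ.1 s).1 hθ
  have hcard : Nat.card (Cu (1 : G)) = Nat.card G := by
    have htop : Cu (1 : G) = ⊤ := by
      rw [eq_top_iff]
      exact fun x _ => mem_cu_one x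
    rw [htop]
    exact Subgroup.card_top
  unfold mm rip
  rw [hcard]
  refine congrArg _ (finsum_congr fun s => ?_)
  rw [hgv χ hχ, hgv ψ hψ]
  refine finsum_congr_Prop ?_ fun _ => rfl
  exact propext ⟨fun h => h.2, fun h => ⟨mem_cu_one s, h⟩⟩

end Pool.Agent.PP.TB.H20
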